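import Mathlib
import Pool.Agent.H43R2.Cplx.EFinal

set_option autoImplicit false

namespace Pool.Agent.Results.MP_7e9a3a_nt.BlocksOfE

/-- The block complexity: the number of distinct blocks of `n` consecutive digits in the base `b`
expansion of the fractional part of `ξ`. -/
noncomputable def blockCount (b : ℕ) [NeZero b] (ξ : ℝ) (n : ℕ) : ℕ :=
  (Set.range fun i : ℕ => fun k : Fin n => Real.digits (Int.fract ξ) b (i + k)).ncard

/-- For every base `b ≥ 2`, `liminf p(n, e, b) / n ≥ 5/4`, where `p(n, e, b)` is the number of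
distinct blocks of `n` digits in the base `b` expansion of `e`. -/
theorem result (b : ℕ) [NeZero b] (hb : 2 ≤ b) (c : ℝ) (hc : c < 5 / 4) :
    ∀ᶠ n : ℕ in Filter.atTop, c * n < blockCount b (Real.exp 1) n :=
  Pool.Agent.H43R2.Cplx.liminf_of_exp2 Pool.Agent.H43R2.Cplx.exp2_e b hb hc

end Pool.Agent.Results.MP_7e9a3a_nt.BlocksOfE
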