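import Mathlib
import Pool.Agent.H43R2.Cplx.Sqrt2

set_option autoImplicit false

namespace Pool.Agent.Results.MP_7e9a3a_nt.BlocksOfSqrtTwo

/-- The block complexity: the number of distinct blocks of `n` consecutive digits in the base `b`
expansion of the fractional part of `ξ`. -/
noncomputable def blockCount (b : ℕ) [NeZero b] (ξ : ℝ) (n : ℕ) : ℕ :=
  (Set.range fun i : ℕ => fun k : Fin n => Real.digits (Int.fract ξ) b (i + k)).ncard

/-- For every base `b ≥ 2` and every `n`, the base `b` expansion of `√2` contains at least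
`(5 n - 9) / 4` distinct blocks of `n` digits. -/
theorem result (b : ℕ) [NeZero b] (hb : 2 ≤ b) (n : ℕ) :
    5 * n ≤ 4 * blockCount b (√2) n + 9 :=
  Pool.Agent.H43R2.Cplx.sqrt2_blocks b hb n

end Pool.Agent.Results.MP_7e9a3a_nt.BlocksOfSqrtTwo
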