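import Pool.Agent.H323R2.Chg
import Pool.Agent.H323R2.Alg

/-!
Power-type lower bounds for the number of failures of a linear relation between consecutive
digits (in particular for the number of digit changes) of algebraic numbers `x`, in all bases
not divisible by a prime `p` such that all primes of `ℚ(x)` above `p` are ramified.
-/

set_option autoImplicit false

namespace Pool.Agent.Results.MP_7e9a3a_nt.DigitRelations

open Polynomial Pool.Agent.H323R2 NumberField IntermediateField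

/-- the `k`-th base `b` digit of `x` after the point -/
noncomputable def digit (x : ℝ) (b k : ℕ) : ℤ := ⌊x * (b : ℝ) ^ k⌋ % (b : ℤ)

/-- Every relation `q_0 a_k + q_1 a_{k+1} + … + q_m a_{k+m} = e` with fixed integer coefficients
and `q_0 + q_1 b + … + q_m b^m ≠ 0` between consecutive base `b` digits `a_k` of `x` fails for at
least `c N^δ` of the indices `1 ≤ k ≤ N`, for all large `N`. -/
def RelationsFail (x : ℝ) (b : ℕ) : Prop :=
  ∀ (m : ℕ) (q : ℕ → ℤ) (e : ℤ), ∑ j ∈ Finset.range (m + 1), q j * (b : ℤ) ^ j ≠ 0 →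
    ∃ c δ : ℝ, 0 < c ∧ 0 < δ ∧ ∀ᶠ N : ℕ in Filter.atTop, c * (N : ℝ) ^ δ ≤
      (((Finset.range N).filter (fun k : ℕ =>
        ∑ j ∈ Finset.range (m + 1), q j * digit x b (k + 1 + j) ≠ e)).card : ℝ)

/-- every element of `ℚ(x)` is, up to a nonzero integer factor, an integer polynomial in `x` -/
lemma exists_int_poly (x : ℝ) (halg : IsAlgebraic ℚ x) (y : ℚ⟮x⟯) :
    ∃ (w : ℤ) (g : ℤ[X]), w ≠ 0 ∧ (w : ℝ) * (y : ℝ) = (g.map (Int.castRingHom ℝ)).eval x := by
  have hy : (y : ℝ) ∈ (ℚ⟮x⟯).toSubalgebra := y.2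
  rw [adjoin_simple_toSubalgebra_of_isAlgebraic halg, Algebra.adjoin_singleton_eq_range_aeval] at hy
  obtain ⟨f, hf⟩ := hy
  obtain ⟨w, hw, hmap⟩ := IsLocalization.integerNormalization_spec (nonZeroDivisors ℤ) f
  refine ⟨w, IsLocalization.integerNormalization (nonZeroDivisors ℤ) f,
    nonZeroDivisors.ne_zero hw, ?_⟩
  have h1 : (IsLocalization.integerNormalization (nonZeroDivisors ℤ) f).map (Int.castRingHom ℝ) =
      ((IsLocalization.integerNormalization (nonZeroDivisors ℤ) f).map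
        (algebraMap ℤ ℚ)).map (algebraMap ℚ ℝ) := by
    rw [Polynomial.map_map]; congr 1
  have h2 : (aeval x) f = (y : ℝ) := hf
  rw [h1, hmap, Polynomial.eval_map_algebraMap, ← h2]
  simp

/-- The theorem for a number field `L` embedded in `ℚ(x)` all of whose primes above `p` are
ramified. -/
theorem relations_fail (x : ℝ) (halg : IsAlgebraic ℚ x) (L : Type) [Field L] [NumberField L]
    (φ : L →+* ℚ⟮x⟯) (p : ℕ) (hp : p.Prime)
    (h : ∀ P : Ideal (𝓞 L), P.IsPrime → (p : 𝓞 L) ∈ P → (p : 𝓞 L) ∈ P ^ 2)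
    (b : ℕ) (hb : 2 ≤ b) (hpb : ¬ p ∣ b) : RelationsFail x b := by
  intro m q e hq
  have : Fact p.Prime := ⟨hp⟩
  obtain ⟨y, u, N, n, hn, hN, hyu, ⟨a, ha⟩, ⟨c, hc⟩⟩ := exists_yu L p hp h
  obtain ⟨w, g, hw, hg⟩ := exists_int_poly x halg (φ (y : L))
  -- the composed ring homomorphism
  set ψ : 𝓞 L →+* ℝ := (((ℚ⟮x⟯).val : ℚ⟮x⟯ →+* ℝ).comp φ).comp (algebraMap (𝓞 L) L) with hψ
  have hint' : ∀ z : 𝓞 L, IsIntegral ℤ (ψ z) := by
    intro z
    have h1 : IsIntegral ℤ (z : L) := z.2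
    have h2 := h1.map (((((ℚ⟮x⟯).val : ℚ⟮x⟯ →+* ℝ).comp φ)).toIntAlgHom)
    exact h2
  have e1 : ψ y ^ n = p * ψ a := by
    rw [← map_pow, ha, map_mul, map_natCast]
  have e2 : ψ u ^ n = p * ψ c := by
    rw [← map_pow, hc, map_mul, map_natCast]
  have e3 : ψ y * ψ u = N * p := by
    rw [← map_mul, hyu, map_mul, map_natCast, map_intCast]
  exact cnt_main p n hn b hb hpb _ _ _ _ N hN (hint' a) (hint' c) e1 e2 e3 x w hw g hg m q e hq

/-- **Theorem.** Let `x` be a real algebraic number and `K = ℚ(x)`.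

(1) If `p` is a prime number such that `p ∈ P²` for every prime ideal `P` of the ring of integers
of `K` containing `p` (every prime of `K` above `p` is ramified), then for every base `b ≥ 2`
not divisible by `p`, every linear relation between consecutive base `b` digits of `x` fails at
least `c N^δ` times among the first `N` positions.

(2) If `K` has a subfield `L ≠ ℚ` which is Galois over `ℚ`, then there is a prime number `p` such
that the same conclusion holds in every base `b ≥ 2` not divisible by `p`. -/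
theorem result (x : ℝ) (halg : IsAlgebraic ℚ x) :
    (∀ p : ℕ, p.Prime →
      (∀ P : Ideal (𝓞 ℚ⟮x⟯), P.IsPrime → (p : 𝓞 ℚ⟮x⟯) ∈ P → (p : 𝓞 ℚ⟮x⟯) ∈ P ^ 2) →
      ∀ b : ℕ, 2 ≤ b → ¬ p ∣ b → RelationsFail x b) ∧
    (∀ L : IntermediateField ℚ ℚ⟮x⟯, L ≠ ⊥ → IsGalois ℚ L → ∃ p : ℕ, p.Prime ∧
      ∀ b : ℕ, 2 ≤ b → ¬ p ∣ b → RelationsFail x b) := by
  have hint : IsIntegral ℚ x := halg.isIntegral
  have : FiniteDimensional ℚ ℚ⟮x⟯ := adjoin.finiteDimensional hint
  have : NumberField ℚ⟮x⟯ := { to_finiteDimensional := inferInstance }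
  refine ⟨fun p hp h b hb hpb => relations_fail x halg ℚ⟮x⟯ (RingHom.id _) p hp h b hb hpb, ?_⟩
  intro L hL hgal
  have : NumberField L := { to_finiteDimensional := inferInstance }
  have hrank : 1 < Module.finrank ℚ L := by
    have h1 : 0 < Module.finrank ℚ L := Module.finrank_pos
    by_contra h2
    have h3 : Module.finrank ℚ L = 1 := by omega
    exact hL (finrank_eq_one_iff.1 h3)
  obtain ⟨p, hp, h⟩ := NumberField.exists_not_isUnramifiedAt_int_of_isGalois (K := L)
    (𝒪 := 𝓞 L) hrank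
  refine ⟨p, hp, fun b hb hpb => relations_fail x halg L (algebraMap L ℚ⟮x⟯) p hp ?_ b hb hpb⟩
  intro P hP hpP
  exact mem_sq_of_not_unramified L p hp P hP hpP (h P hP hpP)

end Pool.Agent.Results.MP_7e9a3a_nt.DigitRelations
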