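import Mathlib
import Pool.Agent.H326R2.Pi.DigitsTop

set_option autoImplicit false

namespace Pool.Agent.Results.MP_7e9a3a_nt.PiBlocksAllBases

/-- `digit b i = ⌊b^i π⌋ mod b` is the `i`-th digit of `π` in base `b`. -/
noncomputable def digit (b i : ℕ) : ℤ := ⌊Real.pi * (b : ℝ) ^ i⌋ % (b : ℤ)

/-- Digits of `π` in ALL bases `b ≥ 2`, with constants `N0` and `C` independent of the base.
(1) For all `N ≥ N0` and all `s ≥ 1` the digits are not `s`-periodic on the positions from `N + 1` to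
`N + 5.051 (N + s)`.  (2) Among the first `M` digits there are at least `log M / log 6.06 - C`
positions where the digit changes. -/
theorem result :
    (∃ N0 : ℕ, ∀ b : ℕ, 2 ≤ b → ∀ N : ℕ, N0 ≤ N → ∀ s : ℕ, 1 ≤ s →
      ∃ i : ℕ, N < i ∧ (i : ℝ) ≤ N + 5.051 * (N + s) ∧ digit b (i + s) ≠ digit b i) ∧
    (∃ C : ℝ, ∀ b : ℕ, 2 ≤ b → ∀ M : ℕ, 1 ≤ M →
      Real.log M / Real.log 6.06 - C
        ≤ ((Finset.range M).filter fun i => digit b (i + 1) ≠ digit b i).card) :=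
  ⟨Pool.Agent.H326R2.Pi.blocks, Pool.Agent.H326R2.Pi.changes⟩

end Pool.Agent.Results.MP_7e9a3a_nt.PiBlocksAllBases
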